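import Pool.Agent.Helper68.QC.St4
import Pool.Agent.Helper10.QCM.M_APX

/-!
# PART M, module ELL: elliptic regularity
-/

namespace Pool.Agent.Helper26.QCM

open Pool.Agent.Helper68.QC
open MeasureTheory Set Filter Topology Complex
open scoped ContDiff ComplexConjugate ENNReal

namespace ELL

/-- Products of a function continuous on `U` and a continuous function supported in `U`. -/
theorem cont_mul {U : Set ℂ} {g ψ : ℂ → ℂ} (hU : IsOpen U) (hg : ContinuousOn g U)
    (hψ : Continuous ψ) (hs : tsupport ψ ⊆ U) : Continuous fun z => ψ z * g z := by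
  rw [continuous_iff_continuousAt]
  intro z
  by_cases hz : z ∈ tsupport ψ
  · exact hψ.continuousAt.mul (hg.continuousAt (hU.mem_nhds (hs hz)))
  · have h0 : ψ =ᶠ[𝓝 z] 0 := notMem_tsupport_iff_eventuallyEq.1 hz
    refine ContinuousAt.congr (f := fun _ => (0 : ℂ)) continuousAt_const ?_
    filter_upwards [h0] with x hx
    simp [hx]

theorem memLp_tst {φ : ℂ → ℂ} {U : Set ℂ} (h : Tst U φ) : MemLp φ 2 volume :=
  h.continuous.memLp_of_hasCompactSupport h.cpt

theorem memLp_conj {ψ : ℂ → ℂ} (h : MemLp ψ 2 volume) : MemLp (fun z => conj (ψ z)) 2 volume :=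
  h.star

/-- The energy identity. -/
theorem energy {φ : ℂ → ℂ} (h : Tst univ φ) : ∫ z, ‖dz φ z‖ ^ 2 = ∫ z, ‖dzb φ z‖ ^ 2 := by
  have hg : ContDiff ℝ ∞ (fun z => conj (φ z)) := (Complex.conjCLE.contDiff).comp h.smooth
  have hb := integral_bracket h hg
  have e : (fun z => dz φ z * dzb (fun z => conj (φ z)) z - dzb φ z * dz (fun z => conj (φ z)) z) =
      fun z => ((‖dz φ z‖ ^ 2 - ‖dzb φ z‖ ^ 2 : ℝ) : ℂ) := by
    ext z
    rw [dz_conj (h.differentiable z), dzb_conj (h.differentiable z), Complex.mul_conj,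
      Complex.mul_conj, Complex.normSq_eq_norm_sq, Complex.normSq_eq_norm_sq]
    push_cast
    ring
  rw [e] at hb
  have hb' : ∫ z, (‖dz φ z‖ ^ 2 - ‖dzb φ z‖ ^ 2) = 0 := by
    have h0 := integral_ofReal (𝕜 := ℂ) (μ := volume) (f := fun z : ℂ => ‖dz φ z‖ ^ 2 - ‖dzb φ z‖ ^ 2)
    have h1 : ((∫ z, (‖dz φ z‖ ^ 2 - ‖dzb φ z‖ ^ 2) : ℝ) : ℂ) = 0 := h0.symm.trans hb
    exact_mod_cast h1
  have i1 : Integrable fun z => ‖dz φ z‖ ^ 2 := (memLp_tst h.hdz).integrable_norm_pow (by simp)
  have i2 : Integrable fun z => ‖dzb φ z‖ ^ 2 := (memLp_tst h.hdzb).integrable_norm_pow (by simp)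
  rw [integral_sub i1 i2] at hb'
  linarith

theorem eLpNorm_eq {φ : ℂ → ℂ} (h : Tst univ φ) :
    eLpNorm (dz φ) 2 volume = eLpNorm (dzb φ) 2 volume := by
  rw [(memLp_tst h.hdz).eLpNorm_eq_integral_rpow_norm (by simp) (by simp),
    (memLp_tst h.hdzb).eLpNorm_eq_integral_rpow_norm (by simp) (by simp)]
  have e := energy h
  simp only [ENNReal.toReal_ofNat, Real.rpow_ofNat]
  rw [e]

/-- The pairing as an inner product. -/
theorem pair {g ψ : ℂ → ℂ} (hg : MemLp g 2 volume) (hψ : MemLp (fun z => conj (ψ z)) 2 volume) :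
    inner ℂ (hψ.toLp _) (hg.toLp _) = ∫ z, g z * ψ z := by
  rw [MeasureTheory.L2.inner_def]
  refine integral_congr_ae ?_
  filter_upwards [hg.coeFn_toLp, hψ.coeFn_toLp] with z h1 h2
  rw [h1, h2, RCLike.inner_apply]
  simp

/-- Global version. -/
theorem glob (hMO1 : StMO1) (hMO2 : StMO2) {F B : ℂ → ℂ} (hF : Continuous F)
    (hFs : HasCompactSupport F) (hB : MemLp B 2 volume)
    (hw : ∀ φ, Tst univ φ → ∫ z, F z * dzb φ z = - ∫ z, B z * φ z) :
    ∃ A : ℂ → ℂ, MemLp A 2 volume ∧ ∀ φ, Tst univ φ → ∫ z, F z * dz φ z = - ∫ z, A z * φ z := by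
  obtain ⟨h1, h2, -, h4, -, -, -⟩ := hMO1
  have hFL : MemLp F 2 volume := hF.memLp_of_hasCompactSupport hFs
  obtain ⟨R, hR⟩ : ∃ R : ℝ, ∀ z, R < ‖z‖ → F z = 0 := by
    obtain ⟨R, hR⟩ := hFs.isCompact.isBounded.subset_closedBall 0
    refine ⟨R, fun z hz => ?_⟩
    by_contra h
    have := hR (subset_tsupport F h)
    rw [mem_closedBall_zero_iff] at this
    linarith
  have T : ∀ n, Tst univ (mol n F) := fun n =>
    ⟨(h1 n F hF.locallyIntegrable).1, HasCompactSupport.intro (isCompact_closedBall 0 (R + 1))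
      (fun z hz => by
        rw [mem_closedBall_zero_iff, not_le] at hz
        exact h4 n F R hR z hz), subset_univ _⟩
  have hdzb : ∀ n, dzb (mol n F) = mol n B := by
    intro n
    ext z
    rw [(h1 n F hF.locallyIntegrable).2.2 z, hw _ ((h2 n z).mono (subset_univ _)), neg_neg]
    unfold mol
    exact integral_congr_ae (ae_of_all _ fun y => mul_comm _ _)
  have hL : ∀ n, MemLp (dz (mol n F)) 2 volume := fun n => memLp_tst (T n).hdz
  have hLb : ∀ n, MemLp (dzb (mol n F)) 2 volume := fun n => memLp_tst (T n).hdzb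
  have hL0 : ∀ n, MemLp (mol n F) 2 volume := fun n => memLp_tst (T n)
  have hed : ∀ n m, edist ((hL n).toLp _) ((hL m).toLp _) =
      edist ((hLb n).toLp _) ((hLb m).toLp _) := by
    intro n m
    rw [Lp.edist_toLp_toLp, Lp.edist_toLp_toLp]
    have hT : Tst univ (fun z => mol n F z - mol m F z) :=
      ⟨(T n).smooth.sub (T m).smooth, (T n).cpt.sub (T m).cpt, subset_univ _⟩
    have e1 : dz (mol n F) - dz (mol m F) = dz (fun z => mol n F z - mol m F z) := by
      ext z
      rw [dz_sub ((T n).differentiable z) ((T m).differentiable z)]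
      rfl
    have e2 : dzb (mol n F) - dzb (mol m F) = dzb (fun z => mol n F z - mol m F z) := by
      ext z
      rw [dzb_sub ((T n).differentiable z) ((T m).differentiable z)]
      rfl
    rw [e1, e2, eLpNorm_eq hT]
  have hv : Tendsto (fun n => (hLb n).toLp _) atTop (𝓝 (hB.toLp B)) := by
    rw [tendsto_iff_edist_tendsto_0]
    refine (hMO2.2 B hB).congr fun n => ?_
    rw [Lp.edist_toLp_toLp, hdzb n]
    rfl
  have hcau : CauchySeq (fun n => (hL n).toLp _) := by
    have hvc := hv.cauchySeq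
    rw [EMetric.cauchySeq_iff] at hvc ⊢
    intro ε hε
    obtain ⟨N, hN⟩ := hvc ε hε
    refine ⟨N, fun m hm n hn => ?_⟩
    rw [hed]
    exact hN m hm n hn
  obtain ⟨A, hA⟩ := cauchySeq_tendsto_of_complete hcau
  have hw0 : Tendsto (fun n => (hL0 n).toLp _) atTop (𝓝 (hFL.toLp F)) := by
    rw [tendsto_iff_edist_tendsto_0]
    refine (hMO2.2 F hFL).congr fun n => ?_
    rw [Lp.edist_toLp_toLp]
    rfl
  refine ⟨A, Lp.memLp A, fun φ hφ => ?_⟩
  have hφc := memLp_conj (memLp_tst hφ)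
  have hφd := memLp_conj (memLp_tst hφ.hdz)
  have l1 : Tendsto (fun n => ∫ z, dz (mol n F) z * φ z) atTop (𝓝 (∫ z, A z * φ z)) := by
    have := (tendsto_const_nhds (x := hφc.toLp _)).inner (𝕜 := ℂ) hA
    have e : inner ℂ (hφc.toLp _) A = ∫ z, A z * φ z := by
      rw [← pair (Lp.memLp A) hφc, Lp.toLp_coeFn]
    rw [e] at this
    exact this.congr fun n => pair (hL n) hφc
  have l2 : Tendsto (fun n => ∫ z, mol n F z * dz φ z) atTop (𝓝 (∫ z, F z * dz φ z)) := by
    have := (tendsto_const_nhds (x := hφd.toLp _)).inner (𝕜 := ℂ) hw0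
    rw [pair hFL hφd] at this
    exact this.congr fun n => pair (hL0 n) hφd
  refine tendsto_nhds_unique l2 (l1.neg.congr fun n => ?_)
  rw [ibp_dz (T n).smooth hφ]

/-- Cutting off. -/
theorem cutb {U : Set ℂ} {f b χ : ℂ → ℂ} (hU : IsOpen U) (hf : ContinuousOn f U) (hb : L2 U b)
    (hw : ∀ φ, Tst U φ → ∫ z, f z * dzb φ z = - ∫ z, b z * φ z) (hχ : Tst U χ) :
    Continuous (fun z => χ z * f z) ∧ HasCompactSupport (fun z => χ z * f z) ∧
    MemLp (fun z => χ z * b z + dzb χ z * f z) 2 volume ∧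
    ∀ φ, Tst univ φ →
      ∫ z, (χ z * f z) * dzb φ z = - ∫ z, (χ z * b z + dzb χ z * f z) * φ z := by
  have c1 : Continuous (fun z => χ z * f z) := cont_mul hU hf hχ.continuous hχ.sub
  have c2 : Continuous (fun z => dzb χ z * f z) := cont_mul hU hf hχ.hdzb.continuous hχ.hdzb.sub
  have s2 : HasCompactSupport (fun z => dzb χ z * f z) := hχ.hdzb.cpt.mul_right
  have hK : IsCompact (tsupport χ) := hχ.cpt
  have hm1 : MemLp (fun z => χ z * b z) 2 volume := by
    have h0 := hb (tsupport χ) hχ.sub hK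
    obtain ⟨C, hC⟩ := hK.exists_bound_of_continuousOn hχ.continuous.continuousOn
    have h1 : MemLp χ ∞ (volume.restrict (tsupport χ)) := by
      refine memLp_top_of_bound hχ.continuous.aestronglyMeasurable C ?_
      exact (ae_restrict_iff' hK.measurableSet).2 (ae_of_all _ hC)
    have h2 : MemLp (fun z => χ z * b z) 2 (volume.restrict (tsupport χ)) := h0.mul' h1
    rw [← memLp_indicator_iff_restrict hK.measurableSet] at h2
    have e : (tsupport χ).indicator (fun z => χ z * b z) = fun z => χ z * b z := by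
      ext z
      by_cases hz : z ∈ tsupport χ
      · rw [indicator_of_mem hz]
      · rw [indicator_of_notMem hz, image_eq_zero_of_notMem_tsupport hz, zero_mul]
    rwa [e] at h2
  have hm2 : MemLp (fun z => dzb χ z * f z) 2 volume := c2.memLp_of_hasCompactSupport s2
  refine ⟨c1, hχ.cpt.mul_right, hm1.add hm2, fun φ hφ => ?_⟩
  have hT : Tst U (fun z => χ z * φ z) := hχ.mul_right hφ.smooth
  have e1 := hw _ hT
  have e2 : (fun z => f z * dzb (fun z => χ z * φ z) z) =
      fun z => (dzb χ z * f z) * φ z + (χ z * f z) * dzb φ z := by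
    ext z
    rw [dzb_mul (hχ.differentiable z) (hφ.differentiable z)]
    ring
  have i1 : Integrable (fun z => (dzb χ z * f z) * φ z) :=
    (c2.mul hφ.continuous).integrable_of_hasCompactSupport s2.mul_right
  have i2 : Integrable (fun z => (χ z * f z) * dzb φ z) :=
    (c1.mul hφ.hdzb.continuous).integrable_of_hasCompactSupport hφ.hdzb.cpt.mul_left
  have i3 : Integrable (fun z => (χ z * b z) * φ z) := hm1.integrable_mul (memLp_tst hφ)
  rw [e2, integral_add i1 i2] at e1
  have e3 : (fun z => (χ z * b z + dzb χ z * f z) * φ z) =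
      fun z => (χ z * b z) * φ z + (dzb χ z * f z) * φ z := by
    ext z
    ring
  rw [e3, integral_add i3 i1]
  have e4 : (fun z => b z * (χ z * φ z)) = fun z => (χ z * b z) * φ z := by
    ext z
    ring
  rw [e4] at e1
  linear_combination e1

/-- Exhaustion by compact sets. -/
theorem exhaustion {U : Set ℂ} (hU : IsOpen U) : ∃ K : ℕ → Set ℂ, (∀ n, IsCompact (K n)) ∧
    (∀ n, K n ⊆ interior (K (n + 1))) ∧ (∀ n, K n ⊆ U) ∧
    ∀ S ⊆ U, IsCompact S → ∃ n, S ⊆ K n := by
  haveI : LocallyCompactSpace U := hU.locallyCompactSpace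
  let E := CompactExhaustion.choice U
  refine ⟨fun n => Subtype.val '' E n, fun n => (E.isCompact n).image continuous_subtype_val,
    fun n => ?_, fun n => ?_, fun S hS hSc => ?_⟩
  · exact (image_mono (E.subset_interior_succ n)).trans
      (hU.isOpenMap_subtype_val.image_interior_subset _)
  · rintro _ ⟨x, -, rfl⟩
    exact x.2
  · have e : Subtype.val '' ((Subtype.val : U → ℂ) ⁻¹' S) = S := by
      rw [Subtype.image_preimage_coe]
      exact inter_eq_right.2 hS
    have hc : IsCompact ((Subtype.val : U → ℂ) ⁻¹' S) := by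
      rw [Subtype.isCompact_iff, e]
      exact hSc
    obtain ⟨n, hn⟩ := E.exists_superset_of_isCompact hc
    refine ⟨n, ?_⟩
    rw [← e]
    exact image_mono hn

end ELL

open ELL

/-- ELL. -/
theorem pELL (hMO1 : StMO1) (hMO2 : StMO2) (hUNW : StUNW) : Pool.Agent.Helper68.QC.StELL := by
  intro U f b hU hf hb hw
  obtain ⟨K, hKc, hKi, hKU, hKex⟩ := exhaustion hU
  have hmono : Monotone K := monotone_nat_of_le_succ fun n => (hKi n).trans interior_subset
  have hcut : ∀ n, ∃ χ : ℂ → ℂ, Tst U χ ∧ ∀ z ∈ K (n + 1), χ =ᶠ[𝓝 z] fun _ => (1 : ℂ) :=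
    fun n => Pool.Agent.Helper10.QCM.apx_cutoff hU (hKc (n + 1)) (hKU (n + 1))
  choose χ hχ hχ1 using hcut
  have hG : ∀ n, ∃ A : ℂ → ℂ, MemLp A 2 volume ∧
      ∀ φ, Tst univ φ → ∫ z, (χ n z * f z) * dz φ z = - ∫ z, A z * φ z := by
    intro n
    obtain ⟨c1, c2, c3, c4⟩ := cutb hU hf hb hw (hχ n)
    exact glob hMO1 hMO2 c1 c2 c3 c4
  choose A hA hAw using hG
  set V : ℕ → Set ℂ := fun n => interior (K (n + 1)) with hV
  have hVK : ∀ n, V n ⊆ K (n + 1) := fun n => interior_subset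
  have hVo : ∀ n, IsOpen (V n) := fun n => isOpen_interior
  have hKV : ∀ n, K n ⊆ V n := hKi
  have hone : ∀ m n, m ≤ n → ∀ z ∈ V m, χ n z = 1 := by
    intro m n hmn z hz
    exact (hχ1 n z (hmono (Nat.add_le_add_right hmn 1) (hVK m hz))).self_of_nhds
  have hWD : ∀ n, WD univ (fun z => χ n z * f z) (A n) (fun z => χ n z * b z + dzb (χ n) z * f z) := by
    intro n
    obtain ⟨c1, c2, c3, c4⟩ := cutb hU hf hb hw (hχ n)
    exact ⟨c1.continuousOn, fun S _ _ => (hA n).restrict S, fun S _ _ => c3.restrict S, hAw n, c4⟩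
  have hcons : ∀ m n, m ≤ n → ∀ᵐ z, z ∈ V m → A m z = A n z := by
    intro m n hmn
    have h := (hUNW (V m) (fun z => χ m z * f z) (fun z => χ n z * f z) _ _ _ _ (hVo m)
      (fun z hz => by
        change χ m z * f z = χ n z * f z
        rw [hone m m le_rfl z hz, hone m n hmn z hz])
      ((hWD m).mono (subset_univ _)) ((hWD n).mono (subset_univ _))).1
    exact (ae_restrict_iff' (hVo m).measurableSet).1 h
  set N : ℂ → ℕ := fun z => sInf {n | z ∈ V n} with hN
  set a : ℂ → ℂ := fun z => A (N z) z with ha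
  have haA : ∀ n, ∀ᵐ z, z ∈ V n → a z = A n z := by
    intro n
    have h1 : ∀ᵐ z, ∀ m, m ≤ n → z ∈ V m → A m z = A n z := by
      refine ae_all_iff.2 fun m => ?_
      by_cases hmn : m ≤ n
      · filter_upwards [hcons m n hmn] with z hz _ using hz
      · exact ae_of_all _ fun z hz => absurd hz hmn
    filter_upwards [h1] with z hz hzn
    have hne : {n | z ∈ V n}.Nonempty := ⟨n, hzn⟩
    exact hz (N z) (Nat.sInf_le hzn) (Nat.sInf_mem hne)
  refine ⟨a, hf, fun S hS hSc => ?_, hb, fun φ hφ => ?_, hw⟩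
  · obtain ⟨n, hn⟩ := hKex S hS hSc
    refine MemLp.ae_eq ?_ ((hA n).restrict S)
    have hSV : S ⊆ V n := hn.trans (hKV n)
    refine (ae_restrict_iff' hSc.measurableSet).2 ?_
    filter_upwards [haA n] with z hz hzS
    exact (hz (hSV hzS)).symm
  · obtain ⟨n, hn⟩ := hKex (tsupport φ) hφ.sub hφ.cpt
    have hSV : tsupport φ ⊆ V n := hn.trans (hKV n)
    have e1 : ∫ z, f z * dz φ z = ∫ z, (χ n z * f z) * dz φ z := by
      refine integral_congr_ae (ae_of_all _ fun z => ?_)
      change f z * dz φ z = (χ n z * f z) * dz φ z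
      by_cases hz : z ∈ tsupport φ
      · rw [hone n n le_rfl z (hSV hz), one_mul]
      · rw [dz_eq_zero hz, mul_zero, mul_zero]
    have e2 : ∫ z, a z * φ z = ∫ z, A n z * φ z := by
      refine integral_congr_ae ?_
      filter_upwards [haA n] with z hz
      by_cases hzs : z ∈ tsupport φ
      · rw [hz (hSV hzs)]
      · rw [image_eq_zero_of_notMem_tsupport hzs, mul_zero, mul_zero]
    rw [e1, e2]
    exact hAw n φ (hφ.mono (subset_univ _))

end Pool.Agent.Helper26.QCM
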